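import Pool.Agent.W2helper90.RT.Stm

/-!
# Project RT, piece CUT: cut-off near the axis
-/

set_option autoImplicit false

open MeasureTheory Set Filter Topology

namespace Pool.Agent.W2helper90.RT

noncomputable section

namespace CUTaux

open LTd (pd)

/-- the square of the norm of the first `k` coordinates -/
def sq (k m : ℕ) (x : Fin (k + m) → ℝ) : ℝ := ∑ i : Fin k, x (Fin.castAdd m i) ^ 2

/-- the inner function of the cut-off -/
def gg (k m n : ℕ) (x : Fin (k + m) → ℝ) : ℝ := (sq k m x * ((n : ℝ) + 1) ^ 2 - 1) / 3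

/-- the cut-off -/
def chi (k m n : ℕ) (x : Fin (k + m) → ℝ) : ℝ := Real.smoothTransition (gg k m n x)

variable {k m : ℕ}

lemma sq_nonneg' (x : Fin (k + m) → ℝ) : 0 ≤ sq k m x := Finset.sum_nonneg fun _ _ => sq_nonneg _

lemma sq_smooth : ContDiff ℝ 1 (sq k m) := by
  unfold sq
  exact ContDiff.sum fun i _ => (contDiff_apply ℝ ℝ _).pow 2

lemma gg_smooth (n : ℕ) : ContDiff ℝ 1 (gg k m n) := by
  unfold gg
  exact ((sq_smooth.mul contDiff_const).sub contDiff_const).div_const 3

lemma chi_smooth (n : ℕ) : ContDiff ℝ 1 (chi k m n) :=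
  Real.smoothTransition.contDiff.comp (gg_smooth n)

lemma chi_nonneg (n : ℕ) (x : Fin (k + m) → ℝ) : 0 ≤ chi k m n x := Real.smoothTransition.nonneg _

lemma chi_le_one (n : ℕ) (x : Fin (k + m) → ℝ) : chi k m n x ≤ 1 := Real.smoothTransition.le_one _

lemma chi_sq_le_one (n : ℕ) (x : Fin (k + m) → ℝ) : chi k m n x ^ 2 ≤ 1 := by
  have h0 := chi_nonneg n x
  have h1 := chi_le_one n x
  nlinarith

lemma chi_zero (n : ℕ) {x : Fin (k + m) → ℝ} (h : sq k m x * ((n : ℝ) + 1) ^ 2 ≤ 1) :
    chi k m n x = 0 := by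
  apply Real.smoothTransition.zero_of_nonpos
  unfold gg
  linarith

lemma chi_one (n : ℕ) {x : Fin (k + m) → ℝ} (h : 4 ≤ sq k m x * ((n : ℝ) + 1) ^ 2) :
    chi k m n x = 1 := by
  apply Real.smoothTransition.one_of_one_le
  unfold gg
  linarith

/-- the derivative of the transition function is bounded -/
lemma deriv_bound : ∃ C : ℝ, 0 ≤ C ∧ ∀ t : ℝ, |deriv Real.smoothTransition t| ≤ C := by
  have hc : Continuous (deriv Real.smoothTransition) :=
    (Real.smoothTransition.contDiff (n := 1)).continuous_deriv le_rfl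
  obtain ⟨C, hC⟩ := isCompact_Icc.exists_bound_of_continuousOn (s := Icc (0 : ℝ) 1) hc.continuousOn
  refine ⟨max C 0, le_max_right _ _, fun t => ?_⟩
  by_cases h0 : t < 0
  · have h1 : Real.smoothTransition =ᶠ[𝓝 t] fun _ => 0 := by
      filter_upwards [Iio_mem_nhds h0] with y hy
      exact Real.smoothTransition.zero_of_nonpos (le_of_lt hy)
    rw [h1.deriv_eq]
    simp
  by_cases h1 : 1 < t
  · have h2 : Real.smoothTransition =ᶠ[𝓝 t] fun _ => 1 := by
      filter_upwards [Ioi_mem_nhds h1] with y hy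
      exact Real.smoothTransition.one_of_one_le (le_of_lt hy)
    rw [h2.deriv_eq]
    simp
  · exact (hC t ⟨not_lt.1 h0, not_lt.1 h1⟩).trans (le_max_left _ _)

lemma deriv_zero {t : ℝ} (h : t < 0 ∨ 1 < t) : deriv Real.smoothTransition t = 0 := by
  rcases h with h0 | h1
  · have h1 : Real.smoothTransition =ᶠ[𝓝 t] fun _ => 0 := by
      filter_upwards [Iio_mem_nhds h0] with y hy
      exact Real.smoothTransition.zero_of_nonpos (le_of_lt hy)
    rw [h1.deriv_eq]
    simp
  · have h2 : Real.smoothTransition =ᶠ[𝓝 t] fun _ => 1 := by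
      filter_upwards [Ioi_mem_nhds h1] with y hy
      exact Real.smoothTransition.one_of_one_le (le_of_lt hy)
    rw [h2.deriv_eq]
    simp

lemma fderiv_sq (x v : Fin (k + m) → ℝ) :
    fderiv ℝ (sq k m) x v = ∑ i : Fin k, 2 * x (Fin.castAdd m i) * v (Fin.castAdd m i) := by
  have h : HasFDerivAt (sq k m) (∑ i : Fin k, (2 • x (Fin.castAdd m i) ^ (2 - 1)) •
      (ContinuousLinearMap.proj (R := ℝ) (φ := fun _ : Fin (k + m) => ℝ) (Fin.castAdd m i))) x := by
    unfold sq
    apply HasFDerivAt.fun_sum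
    intro i _
    exact (hasFDerivAt_apply (𝕜 := ℝ) (Fin.castAdd m i) x).pow 2
  rw [h.fderiv]
  simp

lemma fderiv_gg (n : ℕ) (x v : Fin (k + m) → ℝ) :
    fderiv ℝ (gg k m n) x v = fderiv ℝ (sq k m) x v * ((n : ℝ) + 1) ^ 2 / 3 := by
  have h0 : HasFDerivAt (sq k m) (fderiv ℝ (sq k m) x) x :=
    (sq_smooth.differentiable (by norm_num) x).hasFDerivAt
  have h : HasFDerivAt (gg k m n) ((3 : ℝ)⁻¹ • (((n : ℝ) + 1) ^ 2 • fderiv ℝ (sq k m) x)) x := by
    have h1 := ((h0.mul_const (((n : ℝ) + 1) ^ 2)).sub_const 1).mul_const (3 : ℝ)⁻¹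
    refine h1.congr_of_eventuallyEq (Eventually.of_forall fun y => ?_)
    simp [gg, div_eq_mul_inv]
  rw [h.fderiv]
  simp
  ring

lemma fderiv_chi (n : ℕ) (x v : Fin (k + m) → ℝ) :
    fderiv ℝ (chi k m n) x v = deriv Real.smoothTransition (gg k m n x) *
      (fderiv ℝ (sq k m) x v * ((n : ℝ) + 1) ^ 2 / 3) := by
  have h1 : DifferentiableAt ℝ Real.smoothTransition (gg k m n x) :=
    (Real.smoothTransition.contDiff (n := 1)).differentiable (by norm_num) _
  have h2 : DifferentiableAt ℝ (gg k m n) x := (gg_smooth n).differentiable (by norm_num) x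
  have h3 := (h1.hasDerivAt.comp_hasFDerivAt x h2.hasFDerivAt).fderiv
  have h4 : (Real.smoothTransition ∘ gg k m n) = chi k m n := rfl
  rw [h4] at h3
  rw [h3, smul_apply, fderiv_gg, smul_eq_mul]

/-- bound for the derivative of the cut-off -/
lemma pd_chi_bound {C : ℝ} (hC0 : 0 ≤ C) (hC : ∀ t : ℝ, |deriv Real.smoothTransition t| ≤ C)
    (n : ℕ) (j : Fin (k + m)) (x : Fin (k + m) → ℝ) :
    |pd j (chi k m n) x| ≤ 2 * C * ((n : ℝ) + 1) := by
  unfold pd
  rw [fderiv_chi]
  by_cases h : gg k m n x < 0 ∨ 1 < gg k m n x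
  · rw [deriv_zero h, zero_mul, abs_zero]
    positivity
  push Not at h
  have hs : sq k m x * ((n : ℝ) + 1) ^ 2 ≤ 4 := by
    have := h.2
    unfold gg at this
    linarith
  have hn : 0 < (n : ℝ) + 1 := by positivity
  have h1 : (∑ i : Fin k, 2 * x (Fin.castAdd m i) *
      (Pi.single j 1 : Fin (k + m) → ℝ) (Fin.castAdd m i)) ^ 2 ≤ 4 * sq k m x := by
    have h2 := Finset.sum_mul_sq_le_sq_mul_sq Finset.univ (fun i : Fin k => 2 * x (Fin.castAdd m i))
      (fun i => (Pi.single j 1 : Fin (k + m) → ℝ) (Fin.castAdd m i))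
    have h3 : ∑ i : Fin k, ((Pi.single j 1 : Fin (k + m) → ℝ) (Fin.castAdd m i)) ^ 2 ≤ 1 := by
      have h4 : ∑ i : Fin (k + m), ((Pi.single j 1 : Fin (k + m) → ℝ) i) ^ 2 = 1 := by
        rw [Finset.sum_eq_single j]
        · simp
        · intro b _ hb
          simp [hb]
        · simp
      rw [Fin.sum_univ_add] at h4
      have h5 : 0 ≤ ∑ i : Fin m, ((Pi.single j 1 : Fin (k + m) → ℝ) (Fin.natAdd k i)) ^ 2 :=
        Finset.sum_nonneg fun _ _ => sq_nonneg _
      linarith
    have h6 : ∑ i : Fin k, (2 * x (Fin.castAdd m i)) ^ 2 = 4 * sq k m x := by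
      unfold sq
      rw [Finset.mul_sum]
      exact Finset.sum_congr rfl fun i _ => by ring
    rw [h6] at h2
    refine h2.trans ?_
    have h7 := sq_nonneg' x
    nlinarith
  rw [fderiv_sq]
  set S := ∑ i : Fin k, 2 * x (Fin.castAdd m i) *
      (Pi.single j 1 : Fin (k + m) → ℝ) (Fin.castAdd m i) with hS
  have h8 : |S| * ((n : ℝ) + 1) ≤ 4 := by
    apply abs_le_of_sq_le_sq' _ (by norm_num) |>.2
    have h9 : (|S| * ((n : ℝ) + 1)) ^ 2 = S ^ 2 * ((n : ℝ) + 1) ^ 2 := by
      rw [mul_pow, sq_abs]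
    rw [h9]
    nlinarith [mul_le_mul_of_nonneg_right h1 (sq_nonneg ((n : ℝ) + 1))]
  rw [abs_mul, abs_div, abs_mul, abs_of_pos (by positivity : (0 : ℝ) < ((n : ℝ) + 1) ^ 2),
    abs_of_pos (by norm_num : (0 : ℝ) < 3)]
  calc |deriv Real.smoothTransition (gg k m n x)| * (|S| * ((n : ℝ) + 1) ^ 2 / 3)
      ≤ C * (|S| * ((n : ℝ) + 1) ^ 2 / 3) :=
        mul_le_mul_of_nonneg_right (hC _) (by positivity)
    _ = C * ((|S| * ((n : ℝ) + 1)) * ((n : ℝ) + 1) / 3) := by ring
    _ ≤ C * (4 * ((n : ℝ) + 1) / 3) := by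
        apply mul_le_mul_of_nonneg_left _ hC0
        apply div_le_div_of_nonneg_right _ (by norm_num)
        exact mul_le_mul_of_nonneg_right h8 hn.le
    _ ≤ 2 * C * ((n : ℝ) + 1) := by nlinarith [mul_nonneg hC0 hn.le]

/-- the derivative of the cut-off vanishes away from the axis -/
lemma pd_chi_zero (n : ℕ) (j : Fin (k + m)) {x : Fin (k + m) → ℝ}
    (h : 4 < sq k m x * ((n : ℝ) + 1) ^ 2) : pd j (chi k m n) x = 0 := by
  unfold pd
  rw [fderiv_chi, deriv_zero, zero_mul]
  right
  unfold gg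
  linarith

/-- the box around the axis -/
def box (k m n : ℕ) (B : ℝ) : Set (Fin (k + m) → ℝ) :=
  Set.pi univ fun i => Fin.addCases (fun _ => Icc (-(2 / ((n : ℝ) + 1))) (2 / ((n : ℝ) + 1)))
    (fun _ => Icc (-B) B) i

lemma vol_box (n : ℕ) {B : ℝ} (hB : 0 ≤ B) :
    volume (box k m n B) = ENNReal.ofReal ((4 / ((n : ℝ) + 1)) ^ k * (2 * B) ^ m) := by
  unfold box
  rw [volume_pi_pi, Fin.prod_univ_add]
  simp only [Fin.addCases_left, Fin.addCases_right, Real.volume_Icc, Finset.prod_const,
    Finset.card_univ, Fintype.card_fin]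
  rw [ENNReal.ofReal_mul (by positivity), ENNReal.ofReal_pow (by positivity),
    ENNReal.ofReal_pow (by positivity)]
  congr 3
  · ring
  · ring

lemma mem_box (n : ℕ) {B : ℝ} {x : Fin (k + m) → ℝ} (hx : ‖x‖ ≤ B)
    (h : sq k m x * ((n : ℝ) + 1) ^ 2 ≤ 4) : x ∈ box k m n B := by
  intro i _
  refine Fin.addCases (fun i => ?_) (fun i => ?_) i
  · show x (Fin.castAdd m i) ∈ Fin.addCases (motive := fun _ => Set ℝ)
      (fun _ => Icc (-(2 / ((n : ℝ) + 1))) (2 / ((n : ℝ) + 1))) (fun _ => Icc (-B) B)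
      (Fin.castAdd m i)
    rw [Fin.addCases_left, mem_Icc, ← abs_le]
    have hn : 0 < (n : ℝ) + 1 := by positivity
    have h1 : x (Fin.castAdd m i) ^ 2 ≤ sq k m x :=
      Finset.single_le_sum (f := fun i : Fin k => x (Fin.castAdd m i) ^ 2)
        (fun _ _ => sq_nonneg _) (Finset.mem_univ i)
    rw [le_div_iff₀ hn]
    apply abs_le_of_sq_le_sq' _ (by norm_num) |>.2
    rw [mul_pow, sq_abs]
    nlinarith [mul_le_mul_of_nonneg_right h1 (sq_nonneg ((n : ℝ) + 1))]
  · show x (Fin.natAdd k i) ∈ Fin.addCases (motive := fun _ => Set ℝ)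
      (fun _ => Icc (-(2 / ((n : ℝ) + 1))) (2 / ((n : ℝ) + 1))) (fun _ => Icc (-B) B)
      (Fin.natAdd k i)
    rw [Fin.addCases_right, mem_Icc, ← abs_le]
    exact (norm_le_pi_norm x _).trans hx

/-- almost every point is not on the axis -/
lemma ae_pos (hk : 0 < k) : ∀ᵐ x : Fin (k + m) → ℝ, 0 < sq k m x := by
  have h : volume {x : Fin (k + m) → ℝ | x (Fin.castAdd m ⟨0, hk⟩) = 0} = 0 := by
    rw [volume_pi]
    exact Measure.pi_hyperplane _ _ _
  have h2 : ∀ᵐ x : Fin (k + m) → ℝ, x (Fin.castAdd m ⟨0, hk⟩) ≠ 0 := by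
    rw [ae_iff]
    simpa using h
  filter_upwards [h2] with x hx
  have h1 : x (Fin.castAdd m ⟨0, hk⟩) ^ 2 ≤ sq k m x :=
    Finset.single_le_sum (f := fun i : Fin k => x (Fin.castAdd m i) ^ 2)
      (fun _ _ => sq_nonneg _) (Finset.mem_univ _)
  have h3 : 0 < x (Fin.castAdd m ⟨0, hk⟩) ^ 2 := by positivity
  linarith

lemma chi_tendsto {x : Fin (k + m) → ℝ} (hx : 0 < sq k m x) :
    ∀ᶠ n : ℕ in atTop, chi k m n x = 1 := by
  have h1 : Tendsto (fun n : ℕ => sq k m x * ((n : ℝ) + 1) ^ 2) atTop atTop := by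
    apply Tendsto.const_mul_atTop hx
    apply (tendsto_pow_atTop (by norm_num)).comp
    exact tendsto_atTop_add_const_right _ _ tendsto_natCast_atTop_atTop
  filter_upwards [h1.eventually_ge_atTop 4] with n hn
  exact chi_one n hn

/-- dominated convergence for the factor `χ²` -/
lemma dct (hk : 0 < k) {F : (Fin (k + m) → ℝ) → ℝ} (hF : Integrable F) :
    Tendsto (fun n : ℕ => ∫ x, chi k m n x ^ 2 * F x) atTop (𝓝 (∫ x, F x)) := by
  apply tendsto_integral_of_dominated_convergence (fun x => ‖F x‖)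
  · intro n
    exact ((chi_smooth n).continuous.pow 2).aestronglyMeasurable.mul hF.aestronglyMeasurable
  · exact hF.norm
  · intro n
    refine Eventually.of_forall fun x => ?_
    rw [norm_mul]
    have h1 : ‖chi k m n x ^ 2‖ ≤ 1 := by
      rw [Real.norm_of_nonneg (sq_nonneg _)]
      exact chi_sq_le_one n x
    calc ‖chi k m n x ^ 2‖ * ‖F x‖ ≤ 1 * ‖F x‖ := mul_le_mul_of_nonneg_right h1 (norm_nonneg _)
      _ = ‖F x‖ := one_mul _
  · filter_upwards [ae_pos (m := m) hk] with x hx
    apply tendsto_const_nhds.congr'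
    filter_upwards [chi_tendsto hx] with n hn
    rw [hn]
    ring

lemma pd_cont {w : (Fin (k + m) → ℝ) → ℝ} (hw : ContDiff ℝ 1 w) (i : Fin (k + m)) :
    Continuous (pd i w) := by
  unfold pd
  exact (hw.continuous_fderiv (by norm_num)).clm_apply continuous_const

lemma pd_supp {w : (Fin (k + m) → ℝ) → ℝ} (hw : HasCompactSupport w) (i : Fin (k + m)) :
    HasCompactSupport (pd i w) := by
  unfold pd
  exact hw.fderiv_apply ℝ _

lemma pd_mul {w : (Fin (k + m) → ℝ) → ℝ} (hw : ContDiff ℝ 1 w) (n : ℕ) (i : Fin (k + m))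
    (x : Fin (k + m) → ℝ) :
    pd i (fun y => chi k m n y * w y) x = chi k m n x * pd i w x + w x * pd i (chi k m n) x := by
  unfold pd
  have h := fderiv_fun_mul ((chi_smooth (k := k) (m := m) n).differentiable (by norm_num) x)
    (hw.differentiable (by norm_num) x)
  rw [h]
  simp

/-- the remainder -/
def rem (k m n : ℕ) (w : (Fin (k + m) → ℝ) → ℝ) (x : Fin (k + m) → ℝ) : ℝ :=
  ∑ i, (2 * chi k m n x * w x * pd i w x * pd i (chi k m n) x + w x ^ 2 * pd i (chi k m n) x ^ 2)

lemma sum_split {w : (Fin (k + m) → ℝ) → ℝ} (hw : ContDiff ℝ 1 w) (n : ℕ)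
    (x : Fin (k + m) → ℝ) :
    ∑ i, pd i (fun y => chi k m n y * w y) x ^ 2 =
      chi k m n x ^ 2 * (∑ i, pd i w x ^ 2) + rem k m n w x := by
  unfold rem
  rw [Finset.mul_sum, ← Finset.sum_add_distrib]
  refine Finset.sum_congr rfl fun i _ => ?_
  rw [pd_mul hw]
  ring

lemma rem_cont {w : (Fin (k + m) → ℝ) → ℝ} (hw : ContDiff ℝ 1 w) (n : ℕ) :
    Continuous (rem k m n w) := by
  unfold rem
  refine continuous_finsetSum _ fun i _ => ?_
  have h1 := (chi_smooth (k := k) (m := m) n).continuous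
  have h2 := hw.continuous
  have h3 := pd_cont hw i
  have h4 := pd_cont (chi_smooth (k := k) (m := m) n) i
  fun_prop

lemma rem_supp {w : (Fin (k + m) → ℝ) → ℝ} (hw : HasCompactSupport w) (n : ℕ) :
    HasCompactSupport (rem k m n w) := by
  apply hw.mono
  intro x hx
  rw [Function.mem_support] at hx ⊢
  intro h
  apply hx
  unfold rem
  simp [h]

/-- the remainder tends to zero -/
lemma rem_tendsto (hk : 3 ≤ k) {w : (Fin (k + m) → ℝ) → ℝ} (hw : ContDiff ℝ 1 w)
    (hs : HasCompactSupport w) :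
    Tendsto (fun n : ℕ => ∫ x, rem k m n w x) atTop (𝓝 0) := by
  obtain ⟨C, hC0, hC⟩ := deriv_bound
  obtain ⟨W, hW⟩ := hs.exists_bound_of_continuous hw.continuous
  have hG : ∀ i : Fin (k + m), ∃ G : ℝ, ∀ x, ‖pd i w x‖ ≤ G := fun i =>
    (pd_supp hs i).exists_bound_of_continuous (pd_cont hw i)
  choose G hG using hG
  obtain ⟨B, hB0, hB⟩ : ∃ B : ℝ, 0 ≤ B ∧ ∀ x, w x ≠ 0 → ‖x‖ ≤ B := by
    obtain ⟨B, hB⟩ := hs.isCompact.isBounded.exists_norm_le
    refine ⟨max B 0, le_max_right _ _, fun x hx => (hB x ?_).trans (le_max_left _ _)⟩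
    exact subset_tsupport _ hx
  have hW0 : 0 ≤ W := (norm_nonneg _).trans (hW 0)
  have hG0 : ∀ i, 0 ≤ G i := fun i => (norm_nonneg _).trans (hG i 0)
  -- the pointwise bound
  set M : ℝ := ∑ i : Fin (k + m), (4 * C * W * G i + 4 * C ^ 2 * W ^ 2) with hM
  have hM0 : 0 ≤ M := Finset.sum_nonneg fun i _ => by
    have := hG0 i
    positivity
  have hb : ∀ (n : ℕ) (x : Fin (k + m) → ℝ), ‖rem k m n w x‖ ≤ M * ((n : ℝ) + 1) ^ 2 := by
    intro n x
    unfold rem
    rw [hM, Finset.sum_mul]
    refine (norm_sum_le _ _).trans (Finset.sum_le_sum fun i _ => ?_)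
    have hn : 1 ≤ (n : ℝ) + 1 := by
      have : (0 : ℝ) ≤ n := Nat.cast_nonneg n
      linarith
    have h1 : |chi k m n x| ≤ 1 := by
      rw [abs_of_nonneg (chi_nonneg n x)]
      exact chi_le_one n x
    have h2 : |w x| ≤ W := hW x
    have h3 : |pd i w x| ≤ G i := hG i x
    have h4 := pd_chi_bound (k := k) (m := m) hC0 hC n i x
    rw [Real.norm_eq_abs]
    refine (abs_add_le _ _).trans ?_
    rw [abs_mul, abs_mul, abs_mul, abs_mul, abs_mul, abs_pow, abs_pow,
      abs_of_pos (by norm_num : (0 : ℝ) < 2)]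
    have h5 : 2 * |chi k m n x| * |w x| * |pd i w x| * |pd i (chi k m n) x| ≤
        2 * 1 * W * G i * (2 * C * ((n : ℝ) + 1)) := by
      have := hG0 i
      gcongr
    have h6 : |w x| ^ 2 * |pd i (chi k m n) x| ^ 2 ≤ W ^ 2 * (2 * C * ((n : ℝ) + 1)) ^ 2 := by
      gcongr
    have h7 : 2 * 1 * W * G i * (2 * C * ((n : ℝ) + 1)) ≤ 4 * C * W * G i * ((n : ℝ) + 1) ^ 2 := by
      have h8 : 0 ≤ 4 * C * W * G i := by
        have := hG0 i
        positivity
      nlinarith [mul_le_mul_of_nonneg_left hn (by positivity : (0 : ℝ) ≤ (n : ℝ) + 1)]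
    nlinarith
  -- the integral
  have hint : ∀ n : ℕ, ‖∫ x, rem k m n w x‖ ≤
      M * (4 ^ k * (2 * B) ^ m) * (1 / ((n : ℝ) + 1)) := by
    intro n
    have hn : 1 ≤ (n : ℝ) + 1 := by
      have : (0 : ℝ) ≤ n := Nat.cast_nonneg n
      linarith
    have h1 : ∫ x, rem k m n w x = ∫ x in box k m n B, rem k m n w x := by
      rw [setIntegral_eq_integral_of_forall_compl_eq_zero]
      intro x hx
      by_contra hne
      have hwx : w x ≠ 0 := by
        intro h
        apply hne
        unfold rem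
        simp [h]
      have h4 : 4 < sq k m x * ((n : ℝ) + 1) ^ 2 := by
        by_contra h5
        exact hx (mem_box n (hB x hwx) (not_lt.1 h5))
      apply hne
      unfold rem
      simp [pd_chi_zero n _ h4]
    rw [h1]
    have hfin : volume (box k m n B) < ⊤ := by
      rw [vol_box n hB0]
      exact ENNReal.ofReal_lt_top
    refine (norm_setIntegral_le_of_norm_le_const hfin fun x _ => hb n x).trans ?_
    rw [measureReal_def, vol_box n hB0, ENNReal.toReal_ofReal (by positivity)]
    have h2 : (4 / ((n : ℝ) + 1)) ^ k ≤ 4 ^ k * (1 / ((n : ℝ) + 1)) ^ 3 := by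
      rw [div_pow, div_eq_mul_inv, one_div, inv_pow]
      apply mul_le_mul_of_nonneg_left _ (by positivity)
      apply inv_anti₀ (by positivity)
      exact pow_le_pow_right₀ hn hk
    calc M * ((n : ℝ) + 1) ^ 2 * ((4 / ((n : ℝ) + 1)) ^ k * (2 * B) ^ m)
        ≤ M * ((n : ℝ) + 1) ^ 2 * (4 ^ k * (1 / ((n : ℝ) + 1)) ^ 3 * (2 * B) ^ m) := by
          gcongr
      _ = M * (4 ^ k * (2 * B) ^ m) * (1 / ((n : ℝ) + 1)) := by
          field_simp
  rw [tendsto_zero_iff_norm_tendsto_zero]
  have hlim : Tendsto (fun n : ℕ => M * (4 ^ k * (2 * B) ^ m) * (1 / ((n : ℝ) + 1))) atTop (𝓝 0) := by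
    have := (tendsto_one_div_add_atTop_nhds_zero_nat (𝕜 := ℝ)).const_mul
      (M * (4 ^ k * (2 * B) ^ m))
    rwa [mul_zero] at this
  exact squeeze_zero (fun _ => norm_nonneg _) hint hlim

end CUTaux

open CUTaux in
open LTd (pd) in
theorem t_CUT (h : S_FLAT) : S_CUT := by
  intro k m hk N w hw hs hsub V hV hinv hV0 hVb
  obtain ⟨C, hC⟩ := hVb
  have hk0 : 0 < k := by omega
  -- the cut functions
  have key : ∀ n : ℕ, ENNReal.ofReal (∑ a, ((∫ x, V x * (chi k m n x * w a x) ^ 2) -
      ∫ x, ∑ i, pd i (fun y => chi k m n y * w a y) x ^ 2)) ≤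
      ENNReal.ofReal (Lcl (k + m)) *
        ∫⁻ x, ENNReal.ofReal (V x ^ (1 + ((k + m : ℕ) : ℝ) / 2)) := by
    intro n
    refine h k m hk N (fun a y => chi k m n y * w a y) (fun a => (chi_smooth n).mul (hw a))
      (fun a => (hs a).mul_left) ?_ ?_ V hV hinv hV0 ⟨C, hC⟩
    · refine ⟨1 / ((n : ℝ) + 1), by positivity, fun a x hx => ?_⟩
      have hn : 0 < (n : ℝ) + 1 := by positivity
      have h1 : chi k m n x = 0 := by
        apply chi_zero
        have h2 : sq k m x < (1 / ((n : ℝ) + 1)) ^ 2 := hx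
        rw [div_pow, one_pow, lt_div_iff₀ (by positivity)] at h2
        exact h2.le
      simp only [h1, zero_mul]
    · intro c
      refine le_trans ?_ (hsub c)
      have hint : Integrable fun x => (∑ a, c a * w a x) ^ 2 := by
        apply Continuous.integrable_of_hasCompactSupport
        · have : ∀ a, Continuous (w a) := fun a => (hw a).continuous
          fun_prop
        · have h1 : HasCompactSupport fun x => ∑ a, c a * w a x := by
            have h2 : ∀ a, HasCompactSupport fun x => c a * w a x := fun a => (hs a).mul_left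
            classical
            have h3 : ∀ s : Finset (Fin N), HasCompactSupport fun x => ∑ a ∈ s, c a * w a x := by
              intro s
              induction s using Finset.induction_on with
              | empty =>
                have h6 : (fun x : Fin (k + m) → ℝ => ∑ a ∈ (∅ : Finset (Fin N)), c a * w a x) =
                    0 := by
                  funext x
                  simp
                rw [h6]
                exact HasCompactSupport.zero
              | insert a s ha ih =>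
                have h4 : (fun x => ∑ b ∈ insert a s, c b * w b x) =
                    (fun x => c a * w a x) + fun x => ∑ b ∈ s, c b * w b x := by
                  funext x
                  simp [Finset.sum_insert ha]
                rw [h4]
                exact (h2 a).add ih
            exact h3 Finset.univ
          have h5 : (fun x => (∑ a, c a * w a x) ^ 2) =
              fun x => (∑ a, c a * w a x) * ∑ a, c a * w a x := by
            funext x
            ring
          rw [h5]
          exact h1.mul_left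
      have h1 : ∀ x, (∑ a, c a * (chi k m n x * w a x)) ^ 2 =
          chi k m n x ^ 2 * (∑ a, c a * w a x) ^ 2 := by
        intro x
        rw [← mul_pow, Finset.mul_sum]
        congr 1
        exact Finset.sum_congr rfl fun a _ => by ring
      simp only [h1]
      apply integral_mono_of_nonneg
      · exact Eventually.of_forall fun x => by positivity
      · exact hint
      · refine Eventually.of_forall fun x => ?_
        have h2 := chi_sq_le_one (k := k) (m := m) n x
        have h3 := sq_nonneg (∑ a, c a * w a x)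
        show chi k m n x ^ 2 * (∑ a, c a * w a x) ^ 2 ≤ (∑ a, c a * w a x) ^ 2
        nlinarith
  -- the limits
  have hlim : Tendsto (fun n : ℕ => ∑ a, ((∫ x, V x * (chi k m n x * w a x) ^ 2) -
      ∫ x, ∑ i, pd i (fun y => chi k m n y * w a y) x ^ 2)) atTop
      (𝓝 (∑ a, ((∫ x, V x * w a x ^ 2) - ∫ x, ∑ i, pd i (w a) x ^ 2))) := by
    apply tendsto_finsetSum
    intro a _
    have hsq : HasCompactSupport fun x => w a x ^ 2 := by
      have h5 : (fun x => w a x ^ 2) = fun x => w a x * w a x := by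
        funext x
        ring
      rw [h5]
      exact (hs a).mul_left
    have hsqi : Integrable fun x => w a x ^ 2 :=
      ((hw a).continuous.pow 2).integrable_of_hasCompactSupport hsq
    have hgi : Integrable fun x => ∑ i, pd i (w a) x ^ 2 := by
      apply integrable_finsetSum
      intro i _
      have h5 : (fun x => pd i (w a) x ^ 2) = fun x => pd i (w a) x * pd i (w a) x := by
        funext x
        ring
      rw [h5]
      exact ((pd_cont (hw a) i).mul (pd_cont (hw a) i)).integrable_of_hasCompactSupport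
        (pd_supp (hs a) i).mul_left
    apply Tendsto.sub
    · have h1 : ∀ n : ℕ, ∫ x, V x * (chi k m n x * w a x) ^ 2 =
          ∫ x, chi k m n x ^ 2 * (V x * w a x ^ 2) := by
        intro n
        congr 1
        funext x
        ring
      simp only [h1]
      apply dct hk0
      refine Integrable.mono' (hsqi.const_mul C) ?_ ?_
      · exact hV.aestronglyMeasurable.mul hsqi.aestronglyMeasurable
      · refine Eventually.of_forall fun x => ?_
        rw [norm_mul, Real.norm_of_nonneg (hV0 x), Real.norm_of_nonneg (sq_nonneg _)]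
        exact mul_le_mul_of_nonneg_right (hC x) (sq_nonneg _)
    · have h1 : ∀ n : ℕ, ∫ x, ∑ i, pd i (fun y => chi k m n y * w a y) x ^ 2 =
          (∫ x, chi k m n x ^ 2 * ∑ i, pd i (w a) x ^ 2) + ∫ x, rem k m n (w a) x := by
        intro n
        rw [← integral_add]
        · congr 1
          funext x
          exact sum_split (hw a) n x
        · refine Integrable.mono' hgi.norm ?_ ?_
          · exact ((chi_smooth n).continuous.pow 2).aestronglyMeasurable.mul
              hgi.aestronglyMeasurable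
          · refine Eventually.of_forall fun x => ?_
            rw [norm_mul, Real.norm_of_nonneg (sq_nonneg (chi k m n x))]
            calc chi k m n x ^ 2 * ‖∑ i, pd i (w a) x ^ 2‖ ≤ 1 * ‖∑ i, pd i (w a) x ^ 2‖ :=
                  mul_le_mul_of_nonneg_right (chi_sq_le_one n x) (norm_nonneg _)
              _ = ‖∑ i, pd i (w a) x ^ 2‖ := one_mul _
        · exact (rem_cont (hw a) n).integrable_of_hasCompactSupport (rem_supp (hs a) n)
      simp only [h1]
      have h2 := (dct (k := k) (m := m) hk0 hgi).add (rem_tendsto (by omega) (hw a) (hs a))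
      rw [add_zero] at h2
      exact h2
  exact le_of_tendsto' ((ENNReal.continuous_ofReal.tendsto _).comp hlim) key

end

end Pool.Agent.W2helper90.RT
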